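import Pool.Agent.Q7.CF.Stm
import Pool.Agent.Q296.CJ.NMM

/-!
# Project CF (helper7), job NMM (helper238): the values of `u` and `D - u` at ideals, and the points `P_0`, `P_D`

`norm_mul` is the theorem of helper296 (`Pool/Agent/Q296/CJ/NMM.lean`).
-/

set_option autoImplicit false
set_option linter.unusedSectionVars false

namespace Pool.Agent.Q238.CF

open Polynomial Pool.Agent.Q7.CF
open Pool.Agent.Q296.CJ (norm_mul)

/-! ## Ideals of Dedekind domains -/

section gen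

variable {B : Type} [CommRing B] [IsDedekindDomain B]

theorem pow_cancel {P A A' : Ideal B} (hP : Prime P) {m n : ℕ} (h : P ^ m * A = P ^ n * A') (hA : ¬ P ∣ A)
    (hA' : ¬ P ∣ A') : m = n := by
  rcases lt_trichotomy m n with hlt | heq | hgt
  · exfalso
    obtain ⟨k, rfl⟩ := Nat.exists_eq_add_of_lt hlt
    rw [add_assoc, pow_add P m, mul_assoc] at h
    have h1 := mul_left_cancel₀ (pow_ne_zero m hP.ne_zero) h
    apply hA
    rw [h1]
    exact dvd_mul_of_dvd_left (dvd_pow_self P (Nat.succ_ne_zero k)) A'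
  · exact heq
  · exfalso
    obtain ⟨k, rfl⟩ := Nat.exists_eq_add_of_lt hgt
    rw [add_assoc, pow_add P n, mul_assoc] at h
    have h1 := mul_left_cancel₀ (pow_ne_zero n hP.ne_zero) h
    apply hA'
    rw [← h1]
    exact dvd_mul_of_dvd_left (dvd_pow_self P (Nat.succ_ne_zero k)) A

theorem eq_pow_of_unique {P J : Ideal B} (hP : P.IsMaximal) (hP0 : P ≠ ⊥) (hJ : J ≠ ⊥)
    (h : ∀ Q : Ideal B, Q.IsMaximal → J ≤ Q → Q = P) : ∃ n : ℕ, J = P ^ n := by
  have hPp : Prime P := Ideal.prime_of_isPrime hP0 hP.isPrime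
  obtain ⟨n, J', h1, h2⟩ := WfDvdMonoid.max_power_factor hJ hPp.irreducible
  refine ⟨n, ?_⟩
  have h3 : J' = ⊤ := by
    by_contra hc
    obtain ⟨Q, hQ, hle⟩ := Ideal.exists_le_maximal J' hc
    have h4 : J ≤ Q := by
      rw [h2]
      exact (Ideal.mul_le_right (I := P ^ n) (J := J')).trans hle
    have h5 := h Q hQ h4
    rw [h5] at hle
    exact h1 (Ideal.dvd_iff_le.2 hle)
  rw [h2, h3, Ideal.mul_top]

theorem ord_mem {P : Ideal B} (hP : Prime P) {p i a : ℕ} (hp : p ≠ 0) {z s w : B}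
    (hz : z ^ p = s ^ i * w) (hs : Ideal.span {s} = P ^ a) (hw : w ∉ P) : ∃ c : ℕ, p * c = i * a ∧ z ∈ P ^ c := by
  have hs0 : s ≠ 0 := by
    rintro rfl
    have h1 : P ^ a = ⊥ := by rw [← hs, Ideal.span_singleton_eq_bot]
    exact pow_ne_zero a hP.ne_zero h1
  have hw0 : w ≠ 0 := by
    rintro rfl
    exact hw P.zero_mem
  have hz0 : z ≠ 0 := by
    rintro rfl
    rw [zero_pow hp] at hz
    exact mul_ne_zero (pow_ne_zero i hs0) hw0 hz.symm
  have hZ : Ideal.span {z} ≠ (0 : Ideal B) := by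
    intro h
    exact hz0 (Ideal.span_singleton_eq_bot.1 h)
  obtain ⟨c, J, h1, h2⟩ := WfDvdMonoid.max_power_factor hZ hP.irreducible
  refine ⟨c, ?_, ?_⟩
  · have h3 : P ^ (p * c) * J ^ p = P ^ (i * a) * Ideal.span {w} := by
      rw [mul_comm p c, pow_mul, ← mul_pow, ← h2, Ideal.span_singleton_pow, hz, ← Ideal.span_singleton_mul_span_singleton,
        ← Ideal.span_singleton_pow, hs, mul_comm i a, pow_mul]
    refine pow_cancel hP h3 (fun h => h1 (hP.dvd_of_dvd_pow h)) (fun h => hw ?_)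
    rw [Ideal.dvd_iff_le, Ideal.span_singleton_le_iff_mem] at h
    exact h
  · have h4 : Ideal.span {z} ≤ P ^ c := Ideal.dvd_iff_le.1 ⟨J, h2⟩
    exact (Ideal.span_singleton_le_iff_mem _).1 h4

/-- the only maximal ideal above `s` -/
theorem only_max {P : Ideal B} (hP : P.IsMaximal) {p : ℕ} {s : B} {V w : ℕ → B} {k : ℕ → ℕ}
    (hgen : ∀ z ∈ P, z ∈ Ideal.span ({s} ∪ {x | ∃ i, 1 ≤ i ∧ i < p ∧ x = V i}))
    (hV : ∀ i, 1 ≤ i → i < p → V i ^ p = s ^ k i * w i ∧ w i ∉ P ∧ 1 ≤ k i) :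
    ∀ Q : Ideal B, Q.IsMaximal → s ∈ Q → Q = P := by
  intro Q hQ hsQ
  symm
  apply hP.eq_of_le hQ.ne_top
  intro z hz
  have h1 : Ideal.span ({s} ∪ {x | ∃ i, 1 ≤ i ∧ i < p ∧ x = V i}) ≤ Q := by
    rw [Ideal.span_le]
    rintro x (rfl | ⟨i, hi1, hi2, rfl⟩)
    · exact hsQ
    · obtain ⟨h2, -, h3⟩ := hV i hi1 hi2
      apply hQ.isPrime.mem_of_pow_mem p
      rw [h2]
      exact Ideal.mul_mem_right _ _ (Ideal.pow_mem_of_mem _ hsQ _ h3)
  exact h1 (hgen z hz)

/-- the ramification of `s` -/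
theorem ram {P : Ideal B} (hP : P.IsMaximal) {p : ℕ} (hp : p.Prime) {s : B} {V w : ℕ → B} {k : ℕ → ℕ}
    (hs0 : s ≠ 0) (hsP : s ∈ P)
    (hgen : ∀ z ∈ P, z ∈ Ideal.span ({s} ∪ {x | ∃ i, 1 ≤ i ∧ i < p ∧ x = V i}))
    (hV : ∀ i, 1 ≤ i → i < p → V i ^ p = s ^ k i * w i ∧ w i ∉ P ∧ 1 ≤ k i)
    (hk : ¬ p ∣ k 1) : Ideal.span {s} = P ^ p := by
  have hP0 : P ≠ ⊥ := by
    rintro rfl
    exact hs0 hsP
  have hPp : Prime P := Ideal.prime_of_isPrime hP0 hP.isPrime
  have huni := only_max hP hgen hV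
  obtain ⟨a, ha⟩ := eq_pow_of_unique hP hP0 (J := Ideal.span {s})
    (by rw [Ne, Ideal.span_singleton_eq_bot]; exact hs0)
    (fun Q hQ h => huni Q hQ ((Ideal.span_singleton_le_iff_mem Q).1 h))
  have hord : ∀ i, 1 ≤ i → i < p → ∃ c : ℕ, p * c = k i * a ∧ V i ∈ P ^ c := fun i h1 h2 =>
    ord_mem hPp hp.ne_zero (hV i h1 h2).1 ha (hV i h1 h2).2.1
  obtain ⟨c, rfl⟩ : p ∣ a := by
    obtain ⟨c, hc, -⟩ := hord 1 le_rfl hp.one_lt
    have h1 : p ∣ k 1 * a := ⟨c, hc.symm⟩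
    exact (hp.dvd_mul.1 h1).resolve_left hk
  have hle : P ≤ P ^ c := by
    intro z hz
    have h1 : Ideal.span ({s} ∪ {x | ∃ i, 1 ≤ i ∧ i < p ∧ x = V i}) ≤ P ^ c := by
      rw [Ideal.span_le]
      rintro x (rfl | ⟨i, hi1, hi2, rfl⟩)
      · have h2 : x ∈ P ^ (p * c) := by
          rw [← ha]
          exact Ideal.mem_span_singleton_self _
        exact Ideal.pow_le_pow_right (Nat.le_mul_of_pos_left c hp.pos) h2
      · obtain ⟨c', h2, h3⟩ := hord i hi1 hi2
        have h4 : c' = k i * c := by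
          have h5 : p * c' = p * (k i * c) := by rw [h2]; ring
          exact Nat.eq_of_mul_eq_mul_left hp.pos h5
        refine Ideal.pow_le_pow_right ?_ h3
        rw [h4]
        exact Nat.le_mul_of_pos_left c (hV i hi1 hi2).2.2
    exact h1 (hgen z hz)
  have hc0 : c ≠ 0 := by
    rintro rfl
    rw [mul_zero, pow_zero, Ideal.one_eq_top] at ha
    apply hP.ne_top
    rw [eq_top_iff, ← ha, Ideal.span_singleton_le_iff_mem]
    exact hsP
  have hc1 : c = 1 := by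
    by_contra hc
    have h1 : P ≤ P ^ 2 := hle.trans (Ideal.pow_le_pow_right (by omega))
    rw [← Ideal.dvd_iff_le, pow_two] at h1
    have h2 : P * P ∣ P * 1 := by rwa [mul_one]
    have h3 : P ∣ 1 := (mul_dvd_mul_iff_left hPp.ne_zero).1 h2
    exact hPp.not_isUnit (isUnit_of_dvd_one h3)
  rw [ha, hc1, mul_one]

end gen

/-! ## The norm of an element of a quotient -/

theorem norm_zero_iff {L B : Type} [Field L] [CommRing B] [Algebra L B] {P I : Ideal B} {s : B} (hP : P.IsMaximal)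
    (hsP : s ∈ P) (huni : ∀ Q : Ideal B, Q.IsMaximal → s ∈ Q → Q = P) [FiniteDimensional L (B ⧸ I)] :
    Algebra.norm L (Ideal.Quotient.mk I s) = 0 ↔ I ≤ P := by
  constructor
  · intro h
    have h1 : ¬ IsUnit (Ideal.Quotient.mk I s) := by
      intro hu
      have h2 := hu.map (Algebra.norm L)
      rw [h] at h2
      exact not_isUnit_zero h2
    have h2 : I ⊔ Ideal.span {s} ≠ ⊤ := by
      intro h3
      have h4 : (1 : B) ∈ I ⊔ Ideal.span {s} := by
        rw [h3]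
        trivial
      obtain ⟨u, hu, v, hv, huv⟩ := Submodule.mem_sup.1 h4
      obtain ⟨w, rfl⟩ := Ideal.mem_span_singleton'.1 hv
      apply h1
      refine IsUnit.of_mul_eq_one (Ideal.Quotient.mk I w) ?_
      rw [← map_mul, ← map_one (Ideal.Quotient.mk I), Ideal.Quotient.eq]
      have h5 : s * w - 1 = -u := by
        rw [← huv]
        ring
      rw [h5]
      exact neg_mem hu
    obtain ⟨Q, hQ, hle⟩ := Ideal.exists_le_maximal _ h2
    have hy : s ∈ Q := hle (Ideal.mem_sup_right (Ideal.mem_span_singleton_self _))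
    rw [← huni Q hQ hy]
    exact le_sup_left.trans hle
  · intro h
    by_contra hne
    have h1 : LinearMap.det (Algebra.lmul L (B ⧸ I) (Ideal.Quotient.mk I s)) ≠ 0 := hne
    have h2 : Function.Surjective (Algebra.lmul L (B ⧸ I) (Ideal.Quotient.mk I s)) := by
      have h3 := LinearMap.isUnit_iff_isUnit_det (Algebra.lmul L (B ⧸ I) (Ideal.Quotient.mk I s))
      have h4 := h3.2 (isUnit_iff_ne_zero.2 h1)
      exact ((Module.End.isUnit_iff _).1 h4).2
    obtain ⟨z, hz⟩ := h2 1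
    obtain ⟨b, rfl⟩ := Ideal.Quotient.mk_surjective z
    have h3 : Ideal.Quotient.mk I (s * b) = Ideal.Quotient.mk I 1 := hz
    rw [Ideal.Quotient.eq] at h3
    have h4 := h h3
    apply hP.ne_top
    rw [Ideal.eq_top_iff_one]
    have h5 : (1 : B) = s * b - (s * b - 1) := by ring
    rw [h5]
    exact sub_mem (Ideal.mul_mem_right _ _ hsP) h4

theorem norm_top {L B : Type} [Field L] [CommRing B] [Algebra L B] (s : B) :
    Algebra.norm L (Ideal.Quotient.mk (⊤ : Ideal B) s) = 1 := by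
  have h1 : Subsingleton (B ⧸ (⊤ : Ideal B)) := Ideal.Quotient.subsingleton_iff.2 rfl
  have h2 : Ideal.Quotient.mk (⊤ : Ideal B) s = 1 := Subsingleton.elim _ _
  rw [h2, map_one]

theorem norm_ker {L B : Type} [Field L] [CommRing B] [Algebra L B] (e : B →ₐ[L] L) {P : Ideal B}
    (h : RingHom.ker e = P) (s : B) : Algebra.norm L (Ideal.Quotient.mk P s) = e s := by
  subst h
  have hf : Function.Surjective e := fun a => ⟨algebraMap L B a, e.commutes a⟩
  have h1 : Ideal.Quotient.mk (RingHom.ker e) s = algebraMap L (B ⧸ RingHom.ker e) (e s) := by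
    have h2 : algebraMap L (B ⧸ RingHom.ker e) (e s) = Ideal.Quotient.mk (RingHom.ker e) (algebraMap L B (e s)) := rfl
    rw [h2, Ideal.Quotient.eq, RingHom.mem_ker, map_sub, e.commutes]
    exact sub_self _
  have h3 : Module.finrank L (B ⧸ RingHom.ker e) = 1 := by
    have e' := (Ideal.quotientKerAlgEquivOfSurjective hf).toLinearEquiv.finrank_eq
    rw [Module.finrank_self] at e'
    exact e'
  rw [h1, Algebra.norm_algebraMap, h3, pow_one]

/-! ## The curve -/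

section pts

variable (p r : ℕ) [Fact p.Prime] [Ok p r] {L : Type} [Field L] (D : L)

/-- the basis -/
noncomputable def vI (i : ℕ) : BQ p r D :=
  ⟨XF p D ^ i * YF p D ^ (r * i % p), mons_mem p r D (Nat.mod_modEq _ _)⟩

theorem vI_pow (i : ℕ) : vI p r D i ^ p = uu p r D ^ i * ww p r D ^ (r * i % p) := by
  refine Subtype.ext ?_
  change (XF p D ^ i * YF p D ^ (r * i % p)) ^ p = (XF p D ^ p) ^ i * (YF p D ^ p) ^ (r * i % p)
  rw [mul_pow, ← pow_mul, ← pow_mul, ← pow_mul, ← pow_mul, mul_comm i p, mul_comm (r * i % p) p]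

theorem vI_zero : vI p r D 0 = 1 := by
  refine Subtype.ext ?_
  change XF p D ^ 0 * YF p D ^ (r * 0 % p) = 1
  rw [mul_zero, Nat.zero_mod, pow_zero, pow_zero, one_mul]

theorem mod_pos {i : ℕ} (h1 : 1 ≤ i) (h2 : i < p) : 1 ≤ r * i % p := by
  have hp : p.Prime := Fact.out
  have hr1 : 1 ≤ r := Ok.h1 p
  have hr2 : r + 2 ≤ p := Ok.h2
  by_contra hc
  have h3 : p ∣ r * i := Nat.dvd_of_mod_eq_zero (by omega)
  rcases hp.dvd_mul.1 h3 with h4 | h4
  · have := Nat.le_of_dvd (by omega) h4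
    omega
  · have := Nat.le_of_dvd (by omega) h4
    omega

/-- generators of the kernel of a point -/
theorem gen_ker (hB : S_BSC) (e : BQ p r D →ₐ[L] L) (c : L) (s : BQ p r D) (hu : e (uu p r D) = c)
    (hs : ∃ t : BQ p r D, uu p r D - algebraMap L (BQ p r D) c = s * t)
    (hv : ∀ i, 1 ≤ i → i < p → e (vI p r D i) = 0) (z : BQ p r D) (hz : e z = 0) :
    z ∈ Ideal.span ({s} ∪ {x | ∃ i, 1 ≤ i ∧ i < p ∧ x = vI p r D i}) := by
  obtain ⟨f, hf, -⟩ := (hB p r L D).2.1 z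
  have hp : p.Prime := Fact.out
  replace hf : z = ∑ i : Fin p, aeval (uu p r D) (f i) * vI p r D (i : ℕ) := hf
  have h0 : (f ⟨0, hp.pos⟩).eval c = 0 := by
    rw [hf, map_sum, Finset.sum_eq_single (⟨0, hp.pos⟩ : Fin p)] at hz
    · rw [map_mul] at hz
      change e (aeval (uu p r D) (f ⟨0, hp.pos⟩)) * e (vI p r D 0) = 0 at hz
      rw [vI_zero, map_one, mul_one, ← aeval_algHom_apply, hu, coe_aeval_eq_eval] at hz
      exact hz
    · intro i _ hi
      have hi1 : 1 ≤ (i : ℕ) := by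
        rcases Nat.eq_zero_or_pos (i : ℕ) with h | h
        · exact absurd (Fin.ext h) hi
        · exact h
      rw [map_mul, hv i hi1 i.2, mul_zero]
    · intro h
      exact absurd (Finset.mem_univ _) h
  rw [hf]
  refine Ideal.sum_mem _ fun i _ => ?_
  rcases Nat.eq_zero_or_pos (i : ℕ) with h | h
  · have hi : i = ⟨0, hp.pos⟩ := Fin.ext h
    obtain ⟨q, hq⟩ := dvd_iff_isRoot.2 (show (f ⟨0, hp.pos⟩).IsRoot c from h0)
    obtain ⟨t, ht⟩ := hs
    rw [hi, hq, map_mul, map_sub, aeval_X, aeval_C, ht, mul_assoc, mul_assoc]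
    exact Ideal.mul_mem_right _ _ (Ideal.subset_span (Or.inl rfl))
  · exact Ideal.mul_mem_left _ _ (Ideal.subset_span (Or.inr ⟨i, h, i.2, rfl⟩))

end pts

/-- JOB NMM -/
theorem nmm : S_BSC → S_DED → S_NMM := by
  intro hB hded p r _ _ L _ _ D hD
  have hp : p.Prime := Fact.out
  have hr1 : 1 ≤ r := Ok.h1 p
  have hr2 : r + 2 ≤ p := Ok.h2
  obtain ⟨hdd, hfd, -, -⟩ := hded p r L D hD
  obtain ⟨-, -, -, ⟨e1, k1, u1, w1, v1⟩, ⟨e2, k2, u2, w2, v2⟩⟩ := hB p r L D
  have m1 : ∀ z, z ∈ t1 p r D ↔ e1 z = 0 := fun z => by rw [← k1]; exact RingHom.mem_ker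
  have m2 : ∀ z, z ∈ t2 p r D ↔ e2 z = 0 := fun z => by rw [← k2]; exact RingHom.mem_ker
  have max1 : (t1 p r D).IsMaximal := by
    rw [← k1]
    exact RingHom.ker_isMaximal_of_surjective _ (fun a => ⟨algebraMap L (BQ p r D) a, e1.commutes a⟩)
  have max2 : (t2 p r D).IsMaximal := by
    rw [← k2]
    exact RingHom.ker_isMaximal_of_surjective _ (fun a => ⟨algebraMap L (BQ p r D) a, e2.commutes a⟩)
  have hu0 : uu p r D ≠ 0 := by
    intro h
    rw [h, map_zero] at u2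
    exact hD u2.symm
  have hw0 : ww p r D ≠ 0 := by
    intro h
    rw [h, map_zero] at w1
    exact hD w1.symm
  have hut : uu p r D ∈ t1 p r D := (m1 _).2 u1
  have hwt : ww p r D ∈ t2 p r D := (m2 _).2 w2
  have hut2 : uu p r D ∉ t2 p r D := by
    rw [m2, u2]
    exact hD
  have hwt1 : ww p r D ∉ t1 p r D := by
    rw [m1, w1]
    exact hD
  have e1v : ∀ i, 1 ≤ i → i < p → e1 (vI p r D i) = 0 := by
    intro i hi1 hi2
    have h : e1 (vI p r D i) ^ p = 0 := by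
      rw [← map_pow, vI_pow, map_mul, map_pow, u1, zero_pow (by omega), zero_mul]
    exact pow_eq_zero_iff hp.ne_zero |>.1 h
  have e2v : ∀ i, 1 ≤ i → i < p → e2 (vI p r D i) = 0 := by
    intro i hi1 hi2
    have h0 := mod_pos p r hi1 hi2
    have h : e2 (vI p r D i) ^ p = 0 := by
      rw [← map_pow, vI_pow, map_mul, map_pow, map_pow, w2, zero_pow (by omega), mul_zero]
    exact pow_eq_zero_iff hp.ne_zero |>.1 h
  have g1 : ∀ z ∈ t1 p r D, z ∈ Ideal.span ({uu p r D} ∪ {x | ∃ i, 1 ≤ i ∧ i < p ∧ x = vI p r D i}) :=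
    fun z hz => gen_ker p r D hB e1 0 (uu p r D) u1 ⟨1, by rw [map_zero, sub_zero, mul_one]⟩ e1v z ((m1 z).1 hz)
  have g2 : ∀ z ∈ t2 p r D, z ∈ Ideal.span ({ww p r D} ∪ {x | ∃ i, 1 ≤ i ∧ i < p ∧ x = vI p r D i}) :=
    fun z hz => gen_ker p r D hB e2 D (ww p r D) u2 ⟨-1, by rw [← uu_add_ww]; ring⟩ e2v z ((m2 z).1 hz)
  have V1 : ∀ i, 1 ≤ i → i < p → vI p r D i ^ p = uu p r D ^ i * ww p r D ^ (r * i % p) ∧
      ww p r D ^ (r * i % p) ∉ t1 p r D ∧ 1 ≤ i := fun i h1 h2 =>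
    ⟨vI_pow p r D i, fun h => hwt1 (max1.isPrime.mem_of_pow_mem _ h), h1⟩
  have V2 : ∀ i, 1 ≤ i → i < p → vI p r D i ^ p = ww p r D ^ (r * i % p) * uu p r D ^ i ∧
      uu p r D ^ i ∉ t2 p r D ∧ 1 ≤ r * i % p := fun i h1 h2 =>
    ⟨by rw [vI_pow, mul_comm], fun h => hut2 (max2.isPrime.mem_of_pow_mem _ h), mod_pos p r h1 h2⟩
  have r1 : Ideal.span {uu p r D} = t1 p r D ^ p := by
    refine ram max1 hp (V := vI p r D) (w := fun i => ww p r D ^ (r * i % p)) (k := fun i => i) hu0 hut g1 V1 ?_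
    intro h
    exact hp.one_lt.ne' (Nat.dvd_one.1 h)
  have r2 : Ideal.span {ww p r D} = t2 p r D ^ p := by
    refine ram max2 hp (V := vI p r D) (w := fun i => uu p r D ^ i) (k := fun i => r * i % p) hw0 hwt g2 V2 ?_
    intro h
    have h' : p ∣ r * 1 % p := h
    rw [mul_one, Nat.mod_eq_of_lt (by omega)] at h'
    have := Nat.le_of_dvd (by omega) h'
    omega
  have n1 := only_max max1 (V := vI p r D) (w := fun i => ww p r D ^ (r * i % p)) (k := fun i => i) g1 V1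
  have n2 := only_max max2 (V := vI p r D) (w := fun i => uu p r D ^ i) (k := fun i => r * i % p) g2 V2
  refine ⟨?_, norm_top _, norm_top _, ?_, ?_, ?_, max1, max2, ?_, ?_, ?_, ?_, r1.symm, r2.symm, ?_⟩
  · intro I J hI hJ
    have hIJ : I * J ≠ ⊥ := mul_ne_zero hI hJ
    have := hfd _ hIJ
    exact ⟨norm_mul I J hI hJ _, norm_mul I J hI hJ _⟩
  · intro I hI
    have := hfd I hI
    exact ⟨norm_zero_iff max1 hut n1, norm_zero_iff max2 hwt n2⟩
  · unfold nm
    rw [norm_ker e2 k2, u2]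
  · unfold nw
    rw [norm_ker e1 k1, w1]
  · rintro h
    rw [h] at hut
    exact hu0 hut
  · rintro h
    rw [h] at hwt
    exact hw0 hwt
  · intro h
    rw [h] at hut
    exact hut2 hut
  · have h1 : (t1 p r D * t2 p r D ^ r) ^ p = Ideal.span {vv p r D} ^ p := by
      rw [Ideal.span_singleton_pow, vv_pow, ← Ideal.span_singleton_mul_span_singleton, ← Ideal.span_singleton_pow,
        r1, r2, mul_pow, ← pow_mul, ← pow_mul, mul_comm r p]
    exact dvd_antisymm
      ((UniqueFactorizationMonoid.pow_dvd_pow_iff_dvd hp.ne_zero).1 h1.dvd)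
      ((UniqueFactorizationMonoid.pow_dvd_pow_iff_dvd hp.ne_zero).1 h1.symm.dvd)
  · intro I hI
    refine ⟨Algebra.norm L (Ideal.Quotient.mk I (vv p r D)), ?_⟩
    unfold nm nw
    rw [← map_pow, ← map_mul, ← map_pow (Ideal.Quotient.mk I), ← map_mul (Ideal.Quotient.mk I), ← vv_pow, ← map_pow,
      ← map_pow]

end Pool.Agent.Q238.CF
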